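import Mathlib

/-!
# Kempe equivalence of colourings of `C_4`-free graphs

For every `m ≥ 4` there is a finite 3-colourable graph without (induced) 4-cycles whose `m`-colourings
do not form a Kempe class.

The vertices are the pairs `(i, x)` with `i < m` and `x ∈ ℤ / 3 ^ n`, where `n` is large. For `i < j`
the vertex `(i, x)` is adjacent to `(j, x + 10 ^ e)` and to `(j, x + 2 * 10 ^ e)`, where `e` is a code of
the pair `(i, j)`. As `10 ^ e` generates the group `ℤ / 3 ^ n`, the classes `i` and `j` induce a cycle,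
so that the colouring `(i, x) ↦ i` is Kempe frozen. The residue class of `x` modulo `3` is a proper
colouring with three colours. A 4-cycle would give a relation between powers of ten.
-/

set_option autoImplicit false

namespace Pool.Agent.Results.MP_de689f_co.FourCycleFree

open SimpleGraph

/-- `β` arises from `α` by a Kempe change: for some colours `a ≠ b` and some connected component of the
subgraph induced by the vertices with colours `a` and `b`, the colours `a` and `b` are exchanged on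
this component. -/
def KempeChange {V : Type*} (G : SimpleGraph V) {m : ℕ} (α β : V → Fin m) : Prop :=
  ∃ a b : Fin m, a ≠ b ∧ ∃ C : (G.induce {v | α v = a ∨ α v = b}).ConnectedComponent,
    (∀ v, v ∈ Subtype.val '' C.supp → β v = Equiv.swap a b (α v)) ∧
    (∀ v, v ∉ Subtype.val '' C.supp → β v = α v)

/-- Kempe equivalence of two `m`-colourings -/
def KempeEquivalent {V : Type*} (G : SimpleGraph V) {m : ℕ} (α β : G.Coloring (Fin m)) : Prop :=
  Relation.ReflTransGen (KempeChange G) (fun v => α v) (fun v => β v)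

/-! ### Relations between powers of ten -/

theorem digits (N : ℕ) : ∀ c : ℕ → ℤ, (∀ e, |c e| ≤ 9) →
    ∑ e ∈ Finset.range N, c e * 10 ^ e = 0 → ∀ e < N, c e = 0 := by
  induction N with
  | zero => intro c _ _ e he; omega
  | succ N ih =>
    intro c hc h e he
    rw [Finset.sum_range_succ'] at h
    have h1 : ∑ k ∈ Finset.range N, c (k + 1) * 10 ^ (k + 1) =
        10 * ∑ k ∈ Finset.range N, c (k + 1) * 10 ^ k := by
      rw [Finset.mul_sum]
      apply Finset.sum_congr rfl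
      intro k _
      rw [pow_succ]; ring
    rw [h1] at h
    have h0 := hc 0
    rw [abs_le] at h0
    have h2 : c 0 = 0 := by
      rw [pow_zero, mul_one] at h
      omega
    have h3 : ∑ k ∈ Finset.range N, c (k + 1) * 10 ^ k = 0 := by
      rw [h2] at h
      omega
    rcases e with _ | e
    · exact h2
    · exact ih (fun k => c (k + 1)) (fun k => hc (k + 1)) h3 e (by omega)

theorem four_terms (p₀ p₁ p₂ p₃ : ℕ) (w₀ w₁ w₂ w₃ : ℤ) (h₀ : |w₀| ≤ 2) (h₁ : |w₁| ≤ 2)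
    (h₂ : |w₂| ≤ 2) (h₃ : |w₃| ≤ 2)
    (h : w₀ * 10 ^ p₀ + w₁ * 10 ^ p₁ + w₂ * 10 ^ p₂ + w₃ * 10 ^ p₃ = 0) :
    w₀ + (if p₁ = p₀ then w₁ else 0) + (if p₂ = p₀ then w₂ else 0) +
      (if p₃ = p₀ then w₃ else 0) = 0 := by
  have key := digits (p₀ + p₁ + p₂ + p₃ + 1)
    (fun e => (if p₀ = e then w₀ else 0) + (if p₁ = e then w₁ else 0) + (if p₂ = e then w₂ else 0) +
      (if p₃ = e then w₃ else 0)) ?_ ?_ p₀ (by omega)
  · simpa using key
  · intro e
    rw [abs_le] at h₀ h₁ h₂ h₃ ⊢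
    split_ifs <;> constructor <;> omega
  · refine Eq.trans ?_ h
    simp only [add_mul, Finset.sum_add_distrib, ite_mul, zero_mul, Finset.sum_ite_eq,
      Finset.mem_range]
    rw [if_pos (by omega), if_pos (by omega), if_pos (by omega), if_pos (by omega)]

/-! ### The graph -/

/-- the code of a pair -/
def pr (i j : ℕ) : ℕ := Nat.pair (min i j) (max i j)

/-- the signed coefficient of a step -/
def st (i j : ℕ) (t : Fin 2) : ℤ := (if i < j then 1 else -1) * (t.val + 1)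

theorem st_symm {i j : ℕ} (h : i ≠ j) (t : Fin 2) : st j i t = - st i j t := by
  unfold st
  have := t.isLt
  split_ifs <;> omega

theorem pr_symm (i j : ℕ) : pr j i = pr i j := by
  unfold pr
  rw [min_comm, max_comm]

theorem pr_eq {i j k l : ℕ} : pr i j = pr k l ↔ (min i j = min k l ∧ max i j = max k l) := by
  unfold pr
  exact Nat.pair_eq_pair

theorem pr_one {a b c : ℕ} (h : a ≠ b) (h' : b ≠ c) : pr b c = pr a b ↔ a = c := by
  rw [pr_eq]; omega

theorem pr_three {a b d : ℕ} (h : a ≠ b) (h' : d ≠ a) : pr d a = pr a b ↔ b = d := by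
  rw [pr_eq]; omega

theorem pr_two {a b c d : ℕ} (h : b ≠ c) :
    pr c d = pr a b ↔ a = c ∧ b = d := by
  rw [pr_eq]; omega

theorem abs_st (i j : ℕ) (t : Fin 2) : |st i j t| ≤ 2 := by
  unfold st
  have := t.isLt
  rw [abs_le]
  split_ifs <;> constructor <;> omega

/-- the step -/
def step (i j : ℕ) (t : Fin 2) : ℤ := st i j t * 10 ^ pr i j

theorem step_symm {i j : ℕ} (h : i ≠ j) (t : Fin 2) : step j i t = - step i j t := by
  rw [step, step, st_symm h, pr_symm, neg_mul]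

/-- the graph -/
def Gr (m s : ℕ) : SimpleGraph (Fin m × ZMod s) where
  Adj u v := u.1 ≠ v.1 ∧ ∃ t : Fin 2, v.2 = u.2 + (step u.1 v.1 t : ZMod s)
  symm := ⟨by
    rintro u v ⟨h, t, ht⟩
    refine ⟨h.symm, t, ?_⟩
    have h' : (u.1 : ℕ) ≠ v.1 := fun e => h (Fin.ext e)
    rw [ht, step_symm h']
    push_cast
    ring⟩
  loopless := ⟨fun u h => h.1 rfl⟩

/-- there are no 4-cycles -/
theorem no_four_cycle {m s : ℕ} (hs : 8 * 10 ^ ((m + 1) ^ 2) < s)
    (u₀ u₁ u₂ u₃ : Fin m × ZMod s) (h02 : u₀ ≠ u₂) (h13 : u₁ ≠ u₃)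
    (a01 : (Gr m s).Adj u₀ u₁) (a12 : (Gr m s).Adj u₁ u₂) (a23 : (Gr m s).Adj u₂ u₃)
    (a30 : (Gr m s).Adj u₃ u₀) : False := by
  obtain ⟨i₀, x₀⟩ := u₀
  obtain ⟨i₁, x₁⟩ := u₁
  obtain ⟨i₂, x₂⟩ := u₂
  obtain ⟨i₃, x₃⟩ := u₃
  obtain ⟨n01, t₀, e₀⟩ := a01
  obtain ⟨n12, t₁, e₁⟩ := a12
  obtain ⟨n23, t₂, e₂⟩ := a23
  obtain ⟨n30, t₃, e₃⟩ := a30
  dsimp only at n01 e₀ n12 e₁ n23 e₂ n30 e₃
  have m01 : i₀.val ≠ i₁.val := fun e => n01 (Fin.ext e)
  have m12 : i₁.val ≠ i₂.val := fun e => n12 (Fin.ext e)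
  have m23 : i₂.val ≠ i₃.val := fun e => n23 (Fin.ext e)
  have m30 : i₃.val ≠ i₀.val := fun e => n30 (Fin.ext e)
  -- the sum of the four steps vanishes
  have hsum : ((step i₀ i₁ t₀ + step i₁ i₂ t₁ + step i₂ i₃ t₂ + step i₃ i₀ t₃ : ℤ) : ZMod s) = 0 := by
    push_cast
    have : x₀ = x₀ + (step i₀ i₁ t₀ + step i₁ i₂ t₁ + step i₂ i₃ t₂ + step i₃ i₀ t₃ : ZMod s) := by
      conv_lhs => rw [e₃, e₂, e₁, e₀]
      ring
    exact (left_eq_add.1 this)
  have hdvd : (s : ℤ) ∣ step i₀ i₁ t₀ + step i₁ i₂ t₁ + step i₂ i₃ t₂ + step i₃ i₀ t₃ :=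
    (ZMod.intCast_zmod_eq_zero_iff_dvd _ _).1 hsum
  have hbound : ∀ (i j : Fin m) (t : Fin 2), |step i j t| ≤ 2 * 10 ^ ((m + 1) ^ 2) := by
    intro i j t
    unfold step
    rw [abs_mul]
    have h1 : |(10 : ℤ) ^ pr i j| ≤ 10 ^ ((m + 1) ^ 2) := by
      rw [abs_of_nonneg (by positivity)]
      apply pow_le_pow_right₀ (by norm_num)
      unfold pr
      refine (Nat.pair_lt_max_add_one_sq _ _).le.trans ?_
      apply Nat.pow_le_pow_left
      have := i.isLt
      have := j.isLt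
      omega
    exact mul_le_mul (abs_st _ _ _) h1 (abs_nonneg _) (by norm_num)
  have hlt : |step i₀ i₁ t₀ + step i₁ i₂ t₁ + step i₂ i₃ t₂ + step i₃ i₀ t₃| < (s : ℤ) := by
    have b0 := hbound i₀ i₁ t₀
    have b1 := hbound i₁ i₂ t₁
    have b2 := hbound i₂ i₃ t₂
    have b3 := hbound i₃ i₀ t₃
    have hs' : (8 : ℤ) * 10 ^ ((m + 1) ^ 2) < s := by exact_mod_cast hs
    rw [abs_le] at b0 b1 b2 b3
    rw [abs_lt]
    constructor <;> linarith [b0.1, b0.2, b1.1, b1.2, b2.1, b2.2, b3.1, b3.2]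
  have hzero := Int.eq_zero_of_abs_lt_dvd hdvd hlt
  have key := four_terms (pr i₀ i₁) (pr i₁ i₂) (pr i₂ i₃) (pr i₃ i₀) (st i₀ i₁ t₀) (st i₁ i₂ t₁)
    (st i₂ i₃ t₂) (st i₃ i₀ t₃) (abs_st _ _ _) (abs_st _ _ _) (abs_st _ _ _) (abs_st _ _ _) hzero
  -- no backtracking
  have back02 : i₀ = i₂ → t₀ ≠ t₁ := by
    rintro rfl rfl
    apply h02
    rw [Prod.mk.injEq]
    refine ⟨rfl, ?_⟩
    rw [e₁, e₀, step_symm m01]
    push_cast; ring
  have back02' : i₀ = i₂ → t₂ ≠ t₃ := by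
    rintro rfl rfl
    apply h02
    rw [Prod.mk.injEq]
    refine ⟨rfl, ?_⟩
    rw [e₃, e₂, step_symm m23]
    push_cast; ring
  have back13 : i₁ = i₃ → t₁ ≠ t₂ := by
    rintro rfl rfl
    apply h13
    rw [Prod.mk.injEq]
    refine ⟨rfl, ?_⟩
    rw [e₂, e₁, step_symm m12]
    push_cast; ring
  have back13' : i₁ = i₃ → t₃ ≠ t₀ := by
    rintro rfl rfl
    apply h13
    rw [Prod.mk.injEq]
    refine ⟨rfl, ?_⟩
    rw [e₀, e₃, step_symm m30]
    push_cast; ring
  have T : ∀ t : Fin 2, t.val = 0 ∨ t.val = 1 := fun t => by have := t.isLt; omega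
  have tne : ∀ t t' : Fin 2, t ≠ t' → t.val ≠ t'.val := fun t t' h e => h (Fin.ext e)
  have E1 : pr i₁ i₂ = pr i₀ i₁ ↔ i₀.val = i₂.val := pr_one m01 m12
  have E2 : pr i₂ i₃ = pr i₀ i₁ ↔ i₀.val = i₂.val ∧ i₁.val = i₃.val := pr_two m12
  have E3 : pr i₃ i₀ = pr i₀ i₁ ↔ i₁.val = i₃.val := pr_three m01 m30
  have s0 := T t₀
  have s1 := T t₁
  have s2 := T t₂
  have s3 := T t₃
  by_cases c02 : i₀ = i₂
  · have d02 : i₀.val = i₂.val := by rw [c02]
    by_cases c13 : i₁ = i₃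
    · have d13 : i₁.val = i₃.val := by rw [c13]
      have b1 := tne _ _ (back02 c02)
      have b2 := tne _ _ (back02' c02)
      have b3 := tne _ _ (back13 c13)
      have b4 := tne _ _ (back13' c13)
      rw [if_pos (E1.2 d02), if_pos (E2.2 ⟨d02, d13⟩), if_pos (E3.2 d13), ← c02, ← c13,
        st_symm m01, st_symm m01] at key
      clear E1 E2 E3 hbound hsum hdvd hlt hzero e₀ e₁ e₂ e₃ m12 m23 m30
      simp only [st] at key
      split_ifs at key <;> omega
    · have d13 : i₁.val ≠ i₃.val := fun e => c13 (Fin.ext e)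
      have b1 := tne _ _ (back02 c02)
      rw [if_pos (E1.2 d02), if_neg (fun h => d13 (E2.1 h).2), if_neg (fun h => d13 (E3.1 h)),
        ← c02, st_symm m01] at key
      clear E1 E2 E3 hbound hsum hdvd hlt hzero e₀ e₁ e₂ e₃ m12 m23 m30
      simp only [st] at key
      split_ifs at key <;> omega
  · have d02 : i₀.val ≠ i₂.val := fun e => c02 (Fin.ext e)
    by_cases c13 : i₁ = i₃
    · have d13 : i₁.val = i₃.val := by rw [c13]
      have b4 := tne _ _ (back13' c13)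
      rw [if_neg (fun h => d02 (E1.1 h)), if_neg (fun h => d02 (E2.1 h).1), if_pos (E3.2 d13),
        ← c13, st_symm m01] at key
      clear E1 E2 E3 hbound hsum hdvd hlt hzero e₀ e₁ e₂ e₃ m12 m23 m30
      simp only [st] at key
      split_ifs at key <;> omega
    · have d13 : i₁.val ≠ i₃.val := fun e => c13 (Fin.ext e)
      rw [if_neg (fun h => d02 (E1.1 h)), if_neg (fun h => d02 (E2.1 h).1),
        if_neg (fun h => d13 (E3.1 h))] at key
      clear E1 E2 E3 hbound hsum hdvd hlt hzero e₀ e₁ e₂ e₃ m12 m23 m30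
      simp only [st] at key
      split_ifs at key <;> omega

/-! ### The colouring with three colours -/

theorem three_colour (m n : ℕ) (hn : n ≠ 0) : ∀ u v, (Gr m (3 ^ n)).Adj u v →
    ZMod.castHom (dvd_pow_self 3 hn) (ZMod 3) u.2 ≠ ZMod.castHom (dvd_pow_self 3 hn) (ZMod 3) v.2 := by
  rintro u v ⟨-, t, ht⟩ h
  rw [ht, map_add, left_eq_add, map_intCast, step] at h
  have h10 : ((10 : ℤ) : ZMod 3) = 1 := by decide
  rw [Int.cast_mul, Int.cast_pow, h10, one_pow, mul_one] at h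
  have hc : ∀ t : Fin 2, ((((1 : ℤ) * ((t.val : ℤ) + 1) : ℤ)) : ZMod 3) ≠ 0 ∧
      ((((-1 : ℤ) * ((t.val : ℤ) + 1) : ℤ)) : ZMod 3) ≠ 0 := by decide
  unfold st at h
  split_ifs at h
  · exact (hc t).1 h
  · exact (hc t).2 h

/-! ### The frozen colouring -/

theorem reach_class {m n : ℕ} (π : Equiv.Perm (Fin m)) (a b : Fin m)
    (i j : Fin m) (hij : i ≠ j) (hi : π i = a ∨ π i = b) (hj : π j = a ∨ π j = b)
    (k : ℕ) (x : ZMod (3 ^ n)) :
    ((Gr m (3 ^ n)).induce {v : Fin m × ZMod (3 ^ n) | π v.1 = a ∨ π v.1 = b}).Reachable ⟨(i, x), hi⟩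
      ⟨(i, x + k * (step i j 0 - step i j 1 : ℤ)), hi⟩ := by
  have hij' : i.val ≠ j.val := fun e => hij (Fin.ext e)
  induction k with
  | zero =>
    have : x + ((0 : ℕ) : ZMod (3 ^ n)) * ((step i j 0 - step i j 1 : ℤ) : ZMod (3 ^ n)) = x := by
      simp
    rw [this]
  | succ k ih =>
    refine ih.trans ?_
    set y := x + (k : ZMod (3 ^ n)) * ((step i j 0 - step i j 1 : ℤ) : ZMod (3 ^ n)) with hy
    have h1 : ((Gr m (3 ^ n)).induce {v : Fin m × ZMod (3 ^ n) | π v.1 = a ∨ π v.1 = b}).Adj ⟨(i, y), hi⟩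
        ⟨(j, y + (step i j 0 : ZMod (3 ^ n))), hj⟩ := ⟨hij, 0, rfl⟩
    have h2 : ((Gr m (3 ^ n)).induce {v : Fin m × ZMod (3 ^ n) | π v.1 = a ∨ π v.1 = b}).Adj
        ⟨(j, y + (step i j 0 : ZMod (3 ^ n))), hj⟩
        ⟨(i, x + ((k + 1 : ℕ) : ZMod (3 ^ n)) * ((step i j 0 - step i j 1 : ℤ) : ZMod (3 ^ n))), hi⟩ := by
      refine ⟨hij.symm, 1, ?_⟩
      change x + ((k + 1 : ℕ) : ZMod (3 ^ n)) * ((step i j 0 - step i j 1 : ℤ) : ZMod (3 ^ n)) =
        y + (step i j 0 : ZMod (3 ^ n)) + (step j i 1 : ZMod (3 ^ n))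
      rw [hy, step_symm hij']
      push_cast
      ring
    exact h1.reachable.trans h2.reachable

theorem isUnit_step {n : ℕ} (i j : ℕ) :
    IsUnit ((step i j 0 - step i j 1 : ℤ) : ZMod (3 ^ n)) := by
  have h10 : IsUnit ((10 : ℕ) : ZMod (3 ^ n)) := by
    rw [ZMod.isUnit_iff_coprime]
    exact Nat.Coprime.pow_right n (by norm_num)
  have h : (step i j 0 - step i j 1 : ℤ) = (if i < j then -1 else 1) * 10 ^ pr i j := by
    unfold step st
    split_ifs <;> simp <;> ring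
  rw [h]
  push_cast
  have h10' : IsUnit ((10 : ZMod (3 ^ n)) ^ pr i j) := by
    apply IsUnit.pow
    simpa using h10
  split_ifs
  · simpa using h10'
  · simpa using h10'

theorem reach_all {m n : ℕ} (π : Equiv.Perm (Fin m)) (a b : Fin m) (hab : a ≠ b)
    (u v : {v : Fin m × ZMod (3 ^ n) | π v.1 = a ∨ π v.1 = b}) :
    ((Gr m (3 ^ n)).induce {v : Fin m × ZMod (3 ^ n) | π v.1 = a ∨ π v.1 = b}).Reachable u v := by
  have : NeZero (3 ^ n) := ⟨by positivity⟩
  -- within one class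
  have same : ∀ (i j : Fin m) (hij : i ≠ j) (hi : π i = a ∨ π i = b) (hj : π j = a ∨ π j = b)
      (x y : ZMod (3 ^ n)),
      ((Gr m (3 ^ n)).induce {v : Fin m × ZMod (3 ^ n) | π v.1 = a ∨ π v.1 = b}).Reachable ⟨(i, x), hi⟩ ⟨(i, y), hi⟩ := by
    intro i j hij hi hj x y
    obtain ⟨g, hg⟩ := isUnit_step (n := n) i.val j.val
    have h1 := reach_class π a b i j hij hi hj (((y - x) * (g⁻¹ : (ZMod (3 ^ n))ˣ)).val) x
    have h2 : x + (((((y - x) * (g⁻¹ : (ZMod (3 ^ n))ˣ)).val : ℕ)) : ZMod (3 ^ n)) *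
        ((step i j 0 - step i j 1 : ℤ) : ZMod (3 ^ n)) = y := by
      rw [ZMod.natCast_zmod_val, ← hg]
      simp
    rw [h2] at h1
    exact h1
  -- two classes
  obtain ⟨⟨i, x⟩, hi⟩ := u
  obtain ⟨⟨j, y⟩, hj⟩ := v
  have hi' : π i = a ∨ π i = b := hi
  have hj' : π j = a ∨ π j = b := hj
  by_cases hij : i = j
  · subst hij
    -- another class
    have : ∃ k, k ≠ i ∧ (π k = a ∨ π k = b) := by
      rcases hi' with h | h
      · refine ⟨π.symm b, fun e => hab ?_, Or.inr (by simp)⟩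
        rw [← h, ← e]; simp
      · refine ⟨π.symm a, fun e => hab ?_, Or.inl (by simp)⟩
        rw [← h, ← e]; simp
    obtain ⟨k, hk, hk'⟩ := this
    exact same i k (Ne.symm hk) hi' hk' x y
  · have h1 := same i j hij hi' hj' x (y + (step j i 0 : ZMod (3 ^ n)))
    have h2 : ((Gr m (3 ^ n)).induce {v : Fin m × ZMod (3 ^ n) | π v.1 = a ∨ π v.1 = b}).Adj ⟨(j, y), hj'⟩
        ⟨(i, y + (step j i 0 : ZMod (3 ^ n))), hi'⟩ := ⟨Ne.symm hij, 0, rfl⟩
    exact h1.trans h2.symm.reachable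

theorem frozen_step {m n : ℕ} (π : Equiv.Perm (Fin m)) (γ : Fin m × ZMod (3 ^ n) → Fin m)
    (h : KempeChange (Gr m (3 ^ n)) (fun v => π v.1) γ) :
    ∃ π' : Equiv.Perm (Fin m), γ = fun v => π' v.1 := by
  obtain ⟨a, b, hab, C, h1, h2⟩ := h
  refine ⟨Equiv.swap a b * π, funext fun v => ?_⟩
  by_cases hv : π v.1 = a ∨ π v.1 = b
  · rw [h1 v]
    · rfl
    · refine ⟨⟨v, hv⟩, ?_, rfl⟩
      obtain ⟨w, rfl⟩ := C.exists_rep
      exact ConnectedComponent.sound (reach_all π a b hab _ _)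
  · rw [h2 v]
    · push Not at hv
      rw [Equiv.Perm.mul_apply, Equiv.swap_apply_of_ne_of_ne hv.1 hv.2]
    · rintro ⟨w, -, rfl⟩
      exact hv w.2

theorem frozen {m n : ℕ} (γ : Fin m × ZMod (3 ^ n) → Fin m)
    (h : Relation.ReflTransGen (KempeChange (Gr m (3 ^ n))) (fun v => v.1) γ) :
    ∃ π : Equiv.Perm (Fin m), γ = fun v => π v.1 := by
  induction h with
  | refl => exact ⟨1, rfl⟩
  | tail _ h ih =>
    obtain ⟨π, rfl⟩ := ih
    exact frozen_step π _ h

/-- **`C_4`-free graphs.** For every `m ≥ 4` there is a finite `C_4`-free 3-colourable graph with two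
`m`-colourings that are not Kempe equivalent. -/
theorem result : ∀ m : ℕ, 4 ≤ m → ∃ (V : Type) (_ : Fintype V) (G : SimpleGraph V),
    IsEmpty (cycleGraph 4 ↪g G) ∧ G.Colorable 3 ∧
    ∃ α β : G.Coloring (Fin m), ¬ KempeEquivalent G α β := by
  intro m hm
  obtain ⟨n, hn⟩ : ∃ n : ℕ, 8 * 10 ^ ((m + 1) ^ 2) < 3 ^ n :=
    ⟨_, Nat.lt_pow_self (by norm_num)⟩
  have hn0 : n ≠ 0 := by
    rintro rfl
    have : 0 < 10 ^ ((m + 1) ^ 2) := by positivity
    rw [pow_zero] at hn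
    omega
  have : NeZero (3 ^ n) := ⟨by positivity⟩
  let δ : (Gr m (3 ^ n)).Coloring (ZMod 3) :=
    Coloring.mk (fun v => ZMod.castHom (dvd_pow_self 3 hn0) (ZMod 3) v.2)
      (fun {u v} h => three_colour m n hn0 u v h)
  let e : ZMod 3 → Fin m := fun x => Fin.castLE (by omega : 3 ≤ m) x
  have he : Function.Injective e := Fin.castLE_injective _
  let α : (Gr m (3 ^ n)).Coloring (Fin m) := Coloring.mk (fun v => v.1) (fun {u v} h => h.1)
  let β : (Gr m (3 ^ n)).Coloring (Fin m) :=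
    Coloring.mk (fun v => e (δ v)) (fun {u v} h => fun h' => δ.valid h (he h'))
  refine ⟨Fin m × ZMod (3 ^ n), inferInstance, Gr m (3 ^ n), ⟨fun f => ?_⟩, ?_, α, β, ?_⟩
  · have hadj : ∀ i j : Fin 4, (cycleGraph 4).Adj i j → (Gr m (3 ^ n)).Adj (f i) (f j) :=
      fun i j h => f.map_adj_iff.2 h
    exact no_four_cycle hn (f 0) (f 1) (f 2) (f 3) (fun h => absurd (f.injective h) (by decide))
      (fun h => absurd (f.injective h) (by decide)) (hadj _ _ (by decide)) (hadj _ _ (by decide))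
      (hadj _ _ (by decide)) (hadj _ _ (by decide))
  · exact δ.colorable
  · intro h
    obtain ⟨π, hπ⟩ := frozen _ h
    have h1 := congrFun hπ (π.symm ⟨3, by omega⟩, 0)
    have h2 : (π (π.symm ⟨3, by omega⟩, (0 : ZMod (3 ^ n))).1).val = 3 := by simp
    rw [← h1] at h2
    have h3 : (e (δ (π.symm ⟨3, by omega⟩, 0))).val < 3 :=
      (δ (π.symm ⟨3, by omega⟩, 0)).isLt
    have h4 : (β (π.symm ⟨3, by omega⟩, 0)).val < 3 := h3
    omega

end Pool.Agent.Results.MP_de689f_co.FourCycleFree
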