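import Mathlib

/-!
# Kempe equivalence of colourings of `3K_1`-free graphs

If a finite graph `G` with independence number at most two is `k`-colourable, then any two
`(k + 1)`-colourings of `G` are Kempe equivalent.

Let `β` be a colouring with `k₀ = χ(G)` colours, and `α` an `m`-colouring with `m > k₀`. As long as
some class of `β` is not contained in a class of `α`, there are vertices `u ≠ v` with `β u = β v` and
`α u ≠ α v`, and a colour `c` which `α` gives to no vertex other than `v`: if `α` does not use all
colours this is clear, and otherwise it follows by counting the classes with one vertex. Now recolour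
`v` and then `u` with `c`. In this way `α` is transformed to a colouring with the classes of `β`.
-/

set_option autoImplicit false

namespace Pool.Agent.Results.MP_de689f_co.IndependenceTwo

open SimpleGraph

/-- `β` arises from `α` by a Kempe change: for some colours `a ≠ b` and some connected component of the
subgraph induced by the vertices with colours `a` and `b`, the colours `a` and `b` are exchanged on
this component. -/
def KempeChange {V : Type*} (G : SimpleGraph V) {m : ℕ} (α β : V → Fin m) : Prop :=
  ∃ a b : Fin m, a ≠ b ∧ ∃ C : (G.induce {v | α v = a ∨ α v = b}).ConnectedComponent,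
    (∀ v, v ∈ Subtype.val '' C.supp → β v = Equiv.swap a b (α v)) ∧
    (∀ v, v ∉ Subtype.val '' C.supp → β v = α v)

/-- Kempe equivalence of two `m`-colourings -/
def KempeEquivalent {V : Type*} (G : SimpleGraph V) {m : ℕ} (α β : G.Coloring (Fin m)) : Prop :=
  Relation.ReflTransGen (KempeChange G) (fun v => α v) (fun v => β v)

section

variable {V : Type*} (G : SimpleGraph V) {m : ℕ}

/-- exchange `a` and `b` on `S` -/
noncomputable def exch (S : Set V) (a b : Fin m) (α : V → Fin m) : V → Fin m := by
  classical
  exact fun v => if v ∈ S then Equiv.swap a b (α v) else α v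

theorem exch_mem {S : Set V} {a b : Fin m} {α : V → Fin m} {v : V} (h : v ∈ S) :
    exch S a b α v = Equiv.swap a b (α v) := by
  simp [exch, h]

theorem exch_notMem {S : Set V} {a b : Fin m} {α : V → Fin m} {v : V} (h : v ∉ S) :
    exch S a b α v = α v := by
  simp [exch, h]

theorem swap_or {a b x : Fin m} (h : x = a ∨ x = b) : Equiv.swap a b x = a ∨ Equiv.swap a b x = b := by
  rcases h with rfl | rfl
  · right; simp
  · left; simp

theorem swap_or' {a b x : Fin m} (h : Equiv.swap a b x = a ∨ Equiv.swap a b x = b) :
    x = a ∨ x = b := by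
  have := swap_or h
  rwa [Equiv.swap_apply_self] at this

/-- exchanging two colours on a union of Kempe chains -/
theorem kempe_closed [Finite V] (a b : Fin m) (hab : a ≠ b) (n : ℕ) :
    ∀ (α : V → Fin m) (S : Set V), S.ncard ≤ n → (∀ v ∈ S, α v = a ∨ α v = b) →
    (∀ u ∈ S, ∀ v, (α v = a ∨ α v = b) → G.Adj u v → v ∈ S) →
    Relation.ReflTransGen (KempeChange G) α (exch S a b α) := by
  induction n with
  | zero =>
    intro α S hn _ _
    have hS : S = ∅ := by
      rwa [Nat.le_zero, Set.ncard_eq_zero (Set.toFinite _)] at hn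
    subst hS
    have : exch ∅ a b α = α := by
      funext v
      exact exch_notMem (Set.notMem_empty v)
    rw [this]
  | succ n ih =>
    intro α S hn hS hcl
    by_cases hne : S = ∅
    · subst hne
      have : exch ∅ a b α = α := by
        funext v
        exact exch_notMem (Set.notMem_empty v)
      rw [this]
    obtain ⟨u, hu⟩ := Set.nonempty_iff_ne_empty.2 hne
    set H := G.induce {v | α v = a ∨ α v = b} with hH
    let u' : {v | α v = a ∨ α v = b} := ⟨u, hS u hu⟩
    set C := H.connectedComponentMk u' with hC
    set K : Set V := Subtype.val '' C.supp with hK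
    have huK : u ∈ K := ⟨u', rfl, rfl⟩
    -- the component lies in `S`
    have hreach : ∀ x y, H.Reachable x y → x.1 ∈ S → y.1 ∈ S := by
      rintro x y ⟨p⟩
      induction p with
      | nil => exact id
      | @cons x y z h p ihp => exact fun hx => ihp (hcl x.1 hx y.1 y.2 h)
    have hKS : K ⊆ S := by
      rintro _ ⟨x, hx, rfl⟩
      have h1 : H.Reachable x u' := ConnectedComponent.exact hx
      exact hreach u' x h1.symm hu
    have hKab : ∀ v ∈ K, α v = a ∨ α v = b := fun v hv => hS v (hKS hv)
    -- the first step
    have hstep : KempeChange G α (exch K a b α) :=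
      ⟨a, b, hab, C, fun v hv => exch_mem hv, fun v hv => exch_notMem hv⟩
    have hcard : (S \ K).ncard ≤ n := by
      have h1 : (S \ K).ncard < S.ncard := by
        apply Set.ncard_lt_ncard _ (Set.toFinite _)
        refine ⟨Set.sdiff_subset, fun h => ?_⟩
        exact (h hu).2 huK
      omega
    have hcol : ∀ v, (exch K a b α v = a ∨ exch K a b α v = b) → (α v = a ∨ α v = b) := by
      intro v hv
      by_cases hvK : v ∈ K
      · exact hKab v hvK
      · rwa [exch_notMem hvK] at hv
    have h2 := ih (exch K a b α) (S \ K) hcard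
      (fun v hv => by rw [exch_notMem hv.2]; exact hS v hv.1)
      (fun x hx y hy hxy => by
        have hy' := hcol y hy
        refine (⟨hcl x hx.1 y hy' hxy, fun hyK => hx.2 ?_⟩ : y ∈ S ∧ y ∉ K)
        obtain ⟨y', hy1, hy2⟩ := hyK
        refine ⟨⟨x, hS x hx.1⟩, ?_, rfl⟩
        have hadj : H.Adj ⟨x, hS x hx.1⟩ y' := by
          change G.Adj x y'.1
          rw [hy2]; exact hxy
        have h3 : H.connectedComponentMk ⟨x, hS x hx.1⟩ = H.connectedComponentMk y' :=
          ConnectedComponent.sound hadj.reachable
        exact h3.trans hy1)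
    have heq : exch (S \ K) a b (exch K a b α) = exch S a b α := by
      funext v
      by_cases hvK : v ∈ K
      · rw [exch_notMem (fun h => h.2 hvK), exch_mem hvK, exch_mem (hKS hvK)]
      · by_cases hvS : v ∈ S
        · rw [exch_mem (S := S \ K) (Set.mem_sdiff_of_mem hvS hvK), exch_notMem hvK, exch_mem hvS]
        · rw [exch_notMem (fun h => hvS h.1), exch_notMem hvK, exch_notMem hvS]
    rw [heq] at h2
    exact Relation.ReflTransGen.head hstep h2

/-- a proper colouring -/
def Proper {q : ℕ} (α : V → Fin q) : Prop := ∀ u v, G.Adj u v → α u ≠ α v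

/-- recolouring one vertex -/
theorem kempe_update [Finite V] [DecidableEq V] (α : V → Fin m) (hα : Proper G α) (u : V) (c : Fin m)
    (h : ∀ v, G.Adj u v → α v ≠ c) :
    Relation.ReflTransGen (KempeChange G) α (Function.update α u c) ∧
      Proper G (Function.update α u c) := by
  constructor
  · by_cases hc : α u = c
    · rw [← hc, Function.update_eq_self]
    · have h1 := kempe_closed G (α u) c hc 1 α {u} (by simp)
        (fun v hv => by rw [Set.mem_singleton_iff.1 hv]; left; rfl)
        (fun x hx y hy hxy => by
          rw [Set.mem_singleton_iff.1 hx] at hxy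
          rcases hy with hy | hy
          · exact absurd hy.symm (hα u y hxy)
          · exact absurd hy (h y hxy))
      have heq : exch {u} (α u) c α = Function.update α u c := by
        funext v
        by_cases hv : v = u
        · subst hv; rw [exch_mem (Set.mem_singleton v)]; simp
        · rw [exch_notMem (fun h => hv (Set.mem_singleton_iff.1 h)), Function.update_of_ne hv]
      rwa [heq] at h1
  · intro x y hxy
    by_cases hx : x = u
    · subst hx
      rw [Function.update_self, Function.update_of_ne hxy.ne']
      exact (h y hxy).symm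
    · by_cases hy : y = u
      · subst hy
        rw [Function.update_self, Function.update_of_ne hx]
        exact h x hxy.symm
      · rw [Function.update_of_ne hx, Function.update_of_ne hy]
        exact hα x y hxy

/-- permuting the colours -/
theorem kempe_perm [Finite V] (α : V → Fin m) (π : Equiv.Perm (Fin m)) :
    Relation.ReflTransGen (KempeChange G) α (fun v => π (α v)) := by
  induction π using Equiv.Perm.swap_induction_on with
  | one => exact Relation.ReflTransGen.refl
  | swap_mul π a b hab ih =>
    refine ih.trans ?_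
    have h1 := kempe_closed G a b hab ({v | π (α v) = a ∨ π (α v) = b} : Set V).ncard
      (fun v => π (α v)) {v | π (α v) = a ∨ π (α v) = b} le_rfl
      (fun v hv => hv) (fun x _ y hy _ => hy)
    have heq : exch {v | π (α v) = a ∨ π (α v) = b} a b (fun v => π (α v)) =
        fun v => (Equiv.swap a b * π) (α v) := by
      funext v
      by_cases hv : v ∈ {v | π (α v) = a ∨ π (α v) = b}
      · rw [exch_mem hv]; rfl
      · rw [exch_notMem hv]
        have hv' : ¬ (π (α v) = a ∨ π (α v) = b) := hv
        push Not at hv'
        rw [Equiv.Perm.mul_apply, Equiv.swap_apply_of_ne_of_ne hv'.1 hv'.2]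
    rwa [heq] at h1

theorem kempe_symm_step [Finite V] {α β : V → Fin m} (h : KempeChange G α β) :
    Relation.ReflTransGen (KempeChange G) β α := by
  obtain ⟨a, b, hab, C, h1, h2⟩ := h
  have hsub : ∀ v ∈ (Subtype.val '' C.supp : Set V), α v = a ∨ α v = b := by
    rintro _ ⟨v, -, rfl⟩
    exact v.2
  have hβ : ∀ v, (β v = a ∨ β v = b) → (α v = a ∨ α v = b) := by
    intro v hv
    by_cases hC : v ∈ (Subtype.val '' C.supp : Set V)
    · exact hsub v hC
    · rwa [h2 v hC] at hv
  have h3 := kempe_closed G a b hab _ β (Subtype.val '' C.supp) le_rfl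
    (fun v hv => by rw [h1 v hv]; exact swap_or (hsub v hv))
    (fun x hx y hy hxy => by
      obtain ⟨x', hx1, rfl⟩ := hx
      refine ⟨⟨y, hβ y hy⟩, ?_, rfl⟩
      have hadj : (G.induce {v | α v = a ∨ α v = b}).Adj ⟨y, hβ y hy⟩ x' := hxy.symm
      exact (ConnectedComponent.sound hadj.reachable).trans hx1)
  have heq : exch (Subtype.val '' C.supp) a b β = α := by
    funext v
    by_cases hC : v ∈ (Subtype.val '' C.supp : Set V)
    · rw [exch_mem hC, h1 v hC, Equiv.swap_apply_self]
    · rw [exch_notMem hC, h2 v hC]
  rwa [heq] at h3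

theorem kempe_symm [Finite V] {α β : V → Fin m}
    (h : Relation.ReflTransGen (KempeChange G) α β) :
    Relation.ReflTransGen (KempeChange G) β α := by
  induction h with
  | refl => exact Relation.ReflTransGen.refl
  | tail _ h ih => exact (kempe_symm_step G h).trans ih

end

/-! ### Independence number two -/

section

variable {V : Type*} [Fintype V] [DecidableEq V] (G : SimpleGraph V)

/-- the vertices which are alone in their class -/
def sing {q : ℕ} (γ : V → Fin q) : Finset V :=
  Finset.univ.filter fun v => ∀ x, γ x = γ v → x = v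

theorem two_mul_card_image (hG : ∀ x y z, x ≠ y → x ≠ z → y ≠ z → G.Adj x y ∨ G.Adj x z ∨ G.Adj y z)
    {q : ℕ} (γ : V → Fin q) (hγ : Proper G γ) :
    2 * (Finset.univ.image γ).card = Fintype.card V + (sing γ).card := by
  have h1 : Fintype.card V = ∑ c ∈ Finset.univ.image γ, (Finset.univ.filter fun v => γ v = c).card := by
    rw [← Finset.card_univ]
    exact Finset.card_eq_sum_card_image γ Finset.univ
  have h2 : (sing γ).card = ∑ c ∈ Finset.univ.image γ, ((sing γ).filter fun v => γ v = c).card :=
    Finset.card_eq_sum_card_fiberwise (fun x _ => Finset.mem_coe.2 (Finset.mem_image_of_mem _ (Finset.mem_univ x)))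
  rw [h1, h2, ← Finset.sum_add_distrib, mul_comm, ← smul_eq_mul, ← Finset.sum_const]
  apply Finset.sum_congr rfl
  intro c hc
  obtain ⟨v, -, rfl⟩ := Finset.mem_image.1 hc
  by_cases hs : ∀ x, γ x = γ v → x = v
  · have e1 : (Finset.univ.filter fun x => γ x = γ v) = {v} := by
      ext x; simp only [Finset.mem_filter, Finset.mem_univ, true_and, Finset.mem_singleton]
      exact ⟨hs x, fun h => by rw [h]⟩
    have e2 : ((sing γ).filter fun x => γ x = γ v) = {v} := by
      ext x; simp only [Finset.mem_filter, Finset.mem_singleton, sing, Finset.mem_univ, true_and]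
      constructor
      · rintro ⟨-, h⟩; exact hs x h
      · rintro rfl; exact ⟨hs, rfl⟩
    rw [e1, e2]; simp
  · push Not at hs
    obtain ⟨w, hw, hwv⟩ := hs
    have e1 : (Finset.univ.filter fun x => γ x = γ v) = {v, w} := by
      ext x; simp only [Finset.mem_filter, Finset.mem_univ, true_and, Finset.mem_singleton,
        Finset.mem_insert]
      constructor
      · intro hx
        by_contra hne
        push Not at hne
        rcases hG x v w hne.1 hne.2 (Ne.symm hwv) with h | h | h
        · exact hγ _ _ h hx
        · exact hγ _ _ h (hx.trans hw.symm)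
        · exact hγ _ _ h hw.symm
      · rintro (rfl | rfl)
        · rfl
        · exact hw
    have e2 : ((sing γ).filter fun x => γ x = γ v) = ∅ := by
      rw [Finset.filter_eq_empty_iff]
      intro x hx hxv
      simp only [sing, Finset.mem_filter, Finset.mem_univ, true_and] at hx
      exact hwv ((hx w (hw.trans hxv.symm)).trans (hx v hxv.symm).symm)
    rw [e1, e2, Finset.card_pair (Ne.symm hwv)]; simp

/-- a suitable pair and a suitable colour -/
theorem exists_move (hG : ∀ x y z, x ≠ y → x ≠ z → y ≠ z → G.Adj x y ∨ G.Adj x z ∨ G.Adj y z)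
    {k m : ℕ} (hkm : k < m) (β : V → Fin k) (hβ : Proper G β) (α : V → Fin m) (hα : Proper G α)
    (h : ∃ u v, β u = β v ∧ α u ≠ α v) :
    ∃ u v, β u = β v ∧ α u ≠ α v ∧ ∃ c, ∀ x, α x = c → x = v := by
  by_cases hc : ∃ c, ∀ x, α x ≠ c
  · obtain ⟨c, hc⟩ := hc
    obtain ⟨u, v, h1, h2⟩ := h
    exact ⟨u, v, h1, h2, c, fun x hx => absurd hx (hc x)⟩
  · push Not at hc
    have h1 := two_mul_card_image G hG α hα
    have h2 := two_mul_card_image G hG β hβ
    have h3 : (Finset.univ.image α).card = m := by
      have : Finset.univ.image α = Finset.univ := by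
        ext c; simpa using hc c
      rw [this, Finset.card_univ, Fintype.card_fin]
    have h4 : (Finset.univ.image β).card ≤ k := by
      have := Finset.card_le_univ (Finset.univ.image β)
      rwa [Fintype.card_fin] at this
    have h5 : ¬ sing α ⊆ sing β := by
      intro hsub
      have := Finset.card_le_card hsub
      omega
    rw [Finset.not_subset] at h5
    obtain ⟨v, hv1, hv2⟩ := h5
    simp only [sing, Finset.mem_filter, Finset.mem_univ, true_and] at hv1 hv2
    push Not at hv2
    obtain ⟨u, hu, huv⟩ := hv2
    exact ⟨u, v, hu, fun e => huv (hv1 u e), α v, hv1⟩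

/-- the number of pairs with equal colours in both colourings -/
def pot {k m : ℕ} (β : V → Fin k) (α : V → Fin m) : ℕ :=
  (Finset.univ.filter fun p : V × V => β p.1 = β p.2 ∧ α p.1 = α p.2).card

theorem progress (hG : ∀ x y z, x ≠ y → x ≠ z → y ≠ z → G.Adj x y ∨ G.Adj x z ∨ G.Adj y z)
    {k m : ℕ} (hkm : k < m) (β : V → Fin k) (hβ : Proper G β) (α : V → Fin m) (hα : Proper G α)
    (h : ∃ u v, β u = β v ∧ α u ≠ α v) :
    ∃ α' : V → Fin m, Proper G α' ∧ Relation.ReflTransGen (KempeChange G) α α' ∧
      pot β α < pot β α' := by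
  obtain ⟨u, v, huv, hne, c, hc⟩ := exists_move G hG hkm β hβ α hα h
  have hadj : ¬ G.Adj u v := fun h => hβ u v h huv
  have hne' : u ≠ v := fun e => hne (by rw [e])
  obtain ⟨hr1, hp1⟩ := kempe_update G α hα v c (fun x hx e => hx.ne' (hc x e))
  obtain ⟨hr2, hp2⟩ := kempe_update G (Function.update α v c) hp1 u c (fun x hx e => by
    by_cases hxv : x = v
    · exact hadj (hxv ▸ hx)
    · rw [Function.update_of_ne hxv] at e
      exact hxv (hc x e))
  refine ⟨_, hp2, hr1.trans hr2, ?_⟩
  apply Finset.card_lt_card
  have hcol : ∀ x, (x = u ∨ x = v) → Function.update (Function.update α v c) u c x = c := by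
    rintro x (rfl | rfl)
    · simp
    · by_cases hxu : x = u
      · rw [hxu]; simp
      · rw [Function.update_of_ne hxu]; simp
  have hcol' : ∀ x, ¬ (x = u ∨ x = v) → Function.update (Function.update α v c) u c x = α x := by
    intro x hx
    push Not at hx
    rw [Function.update_of_ne hx.1, Function.update_of_ne hx.2]
  have hclass : ∀ x y, β x = β y → (x = u ∨ x = v) → (y = u ∨ y = v) := by
    intro x y hxy hx
    have hy1 : β y = β u := by
      rcases hx with rfl | rfl
      · exact hxy.symm
      · exact hxy.symm.trans huv.symm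
    by_contra hy
    push Not at hy
    rcases hG y u v hy.1 hy.2 hne' with h | h | h
    · exact hβ _ _ h hy1
    · exact hβ _ _ h (hy1.trans huv)
    · exact hadj h
  refine ⟨?_, fun hsub => ?_⟩
  · rintro ⟨x, y⟩ hxy
    simp only [Finset.mem_filter, Finset.mem_univ, true_and] at hxy ⊢
    refine ⟨hxy.1, ?_⟩
    by_cases hx : x = u ∨ x = v
    · rw [hcol x hx, hcol y (hclass x y hxy.1 hx)]
    · have hy : ¬ (y = u ∨ y = v) := fun hy => hx (hclass y x hxy.1.symm hy)
      rw [hcol' x hx, hcol' y hy]
      exact hxy.2
  · have h1 : (u, v) ∈ Finset.univ.filter fun p : V × V => β p.1 = β p.2 ∧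
        Function.update (Function.update α v c) u c p.1 =
          Function.update (Function.update α v c) u c p.2 := by
      simp only [Finset.mem_filter, Finset.mem_univ, true_and]
      exact ⟨huv, by rw [hcol u (Or.inl rfl), hcol v (Or.inr rfl)]⟩
    have h2 := hsub h1
    simp only [Finset.mem_filter, Finset.mem_univ, true_and] at h2
    exact hne h2.2

theorem reach_coarser (hG : ∀ x y z, x ≠ y → x ≠ z → y ≠ z → G.Adj x y ∨ G.Adj x z ∨ G.Adj y z)
    {k m : ℕ} (hkm : k < m) (β : V → Fin k) (hβ : Proper G β) (n : ℕ) :
    ∀ α : V → Fin m, Proper G α → Fintype.card (V × V) ≤ pot β α + n →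
    ∃ α' : V → Fin m, Proper G α' ∧ Relation.ReflTransGen (KempeChange G) α α' ∧
      ∀ u v, β u = β v → α' u = α' v := by
  induction n with
  | zero =>
    intro α hα hn
    refine ⟨α, hα, Relation.ReflTransGen.refl, fun u v huv => ?_⟩
    by_contra hne
    have h1 : pot β α < Fintype.card (V × V) := by
      rw [← Finset.card_univ]
      apply Finset.card_lt_card
      refine ⟨Finset.filter_subset _ _, fun hsub => ?_⟩
      have := hsub (Finset.mem_univ (u, v))
      simp only [Finset.mem_filter, Finset.mem_univ, true_and] at this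
      exact hne this.2
    omega
  | succ n ih =>
    intro α hα hn
    by_cases h : ∃ u v, β u = β v ∧ α u ≠ α v
    · obtain ⟨α', h1, h2, h3⟩ := progress G hG hkm β hβ α hα h
      obtain ⟨α'', h4, h5, h6⟩ := ih α' h1 (by omega)
      exact ⟨α'', h4, h2.trans h5, h6⟩
    · push Not at h
      exact ⟨α, hα, Relation.ReflTransGen.refl, h⟩

end

/-- **`3K_1`-free graphs.** If a finite graph `G` without three pairwise non-adjacent vertices is
`k`-colourable, then any two `(k + 1)`-colourings of `G` are Kempe equivalent. -/
theorem result : ∀ (V : Type) [Fintype V] (G : SimpleGraph V) (k : ℕ),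
    IsEmpty ((⊥ : SimpleGraph (Fin 3)) ↪g G) → G.Colorable k →
    ∀ α β : G.Coloring (Fin (k + 1)), KempeEquivalent G α β := by
  classical
  intro V _ G k hfree hcol
  have hG : ∀ x y z, x ≠ y → x ≠ z → y ≠ z → G.Adj x y ∨ G.Adj x z ∨ G.Adj y z := by
    intro x y z hxy hxz hyz
    by_contra hn
    push Not at hn
    obtain ⟨n1, n2, n3⟩ := hn
    have n1' : ¬ G.Adj y x := fun h => n1 h.symm
    have n2' : ¬ G.Adj z x := fun h => n2 h.symm
    have n3' : ¬ G.Adj z y := fun h => n3 h.symm
    refine hfree.false ⟨⟨![x, y, z], ?_⟩, ?_⟩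
    · intro i j hij
      fin_cases i <;> fin_cases j <;> simp_all
    · intro i j
      fin_cases i <;> fin_cases j <;> simp_all
  -- a colouring with the least number of colours
  have hex : ∃ k₀, G.Colorable k₀ := ⟨k, hcol⟩
  set k₀ := Nat.find hex with hk₀
  obtain ⟨γ⟩ : G.Colorable k₀ := Nat.find_spec hex
  have hk : k₀ ≤ k := Nat.find_min' hex hcol
  have hmin : ∀ q, G.Colorable q → k₀ ≤ q := fun q hq => Nat.find_min' hex hq
  have hγ : Proper G (fun v => γ v) := fun u v h => γ.valid h
  -- coarser colourings have the same classes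
  have hsame : ∀ α : V → Fin (k + 1), Proper G α → (∀ u v, γ u = γ v → α u = α v) →
      ∀ u v, α u = α v → γ u = γ v := by
    intro α hα hcoarse u v huv
    by_contra hne
    let δ : V → {c : Fin k₀ // c ≠ γ v} := fun x =>
      if hx : γ x = γ v then ⟨γ u, hne⟩ else ⟨γ x, hx⟩
    have hδ : ∀ x y, G.Adj x y → δ x ≠ δ y := by
      intro x y hxy hδ
      have hαxy := hα x y hxy
      have h1 := congrArg Subtype.val hδ
      simp only [δ] at h1
      split_ifs at h1 with hx hy hy
      · exact hαxy (hcoarse x y (hx.trans hy.symm))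
      · exact hαxy ((hcoarse x v hx).trans (huv.symm.trans (hcoarse u y h1)))
      · exact hαxy ((hcoarse x u h1).trans (huv.trans (hcoarse y v hy).symm))
      · exact hαxy (hcoarse x y h1)
    have hc : G.Colorable (Fintype.card {c : Fin k₀ // c ≠ γ v}) :=
      (Coloring.mk δ (fun {x y} h => hδ x y h)).colorable
    have h2 := hmin _ hc
    have h3 : Fintype.card {c : Fin k₀ // c ≠ γ v} < Fintype.card (Fin k₀) :=
      Fintype.card_subtype_lt (x := γ v) (by simp)
    rw [Fintype.card_fin] at h3
    omega
  intro α β
  have hα : Proper G (fun v => α v) := fun u v h => α.valid h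
  have hβ : Proper G (fun v => β v) := fun u v h => β.valid h
  obtain ⟨α', ha1, ha2, ha3⟩ := reach_coarser G hG (by omega : k₀ < k + 1) (fun v => γ v) hγ
    (Fintype.card (V × V)) (fun v => α v) hα (Nat.le_add_left _ _)
  obtain ⟨β', hb1, hb2, hb3⟩ := reach_coarser G hG (by omega : k₀ < k + 1) (fun v => γ v) hγ
    (Fintype.card (V × V)) (fun v => β v) hβ (Nat.le_add_left _ _)
  have ha4 := hsame α' ha1 ha3
  have hb4 := hsame β' hb1 hb3
  -- a permutation of the colours
  have hperm : ∃ π : Equiv.Perm (Fin (k + 1)), (fun v => π (α' v)) = β' := by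
    let f : Set.range α' → Set.range β' := fun c => ⟨β' c.2.choose, ⟨_, rfl⟩⟩
    have hf : ∀ v, f ⟨α' v, ⟨v, rfl⟩⟩ = ⟨β' v, ⟨v, rfl⟩⟩ := by
      intro v
      apply Subtype.ext
      have h1 : ∃ y, α' y = α' v := ⟨v, rfl⟩
      change β' h1.choose = β' v
      exact hb3 _ _ (ha4 _ _ h1.choose_spec)
    have hfb : Function.Bijective f := by
      constructor
      · rintro ⟨_, x, rfl⟩ ⟨_, y, rfl⟩ hxy
        rw [hf, hf] at hxy
        have h1 := congrArg Subtype.val hxy
        exact Subtype.ext (ha3 _ _ (hb4 _ _ h1))
      · rintro ⟨_, x, rfl⟩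
        exact ⟨⟨α' x, ⟨x, rfl⟩⟩, hf x⟩
    let e : {c // c ∈ Set.range α'} ≃ {c // c ∈ Set.range β'} := Equiv.ofBijective f hfb
    refine ⟨e.extendSubtype, funext fun v => ?_⟩
    rw [Equiv.extendSubtype_apply_of_mem e (α' v) ⟨v, rfl⟩]
    exact congrArg Subtype.val (hf v)
  obtain ⟨π, hπ⟩ := hperm
  have h1 := kempe_perm G α' π
  rw [hπ] at h1
  exact (ha2.trans h1).trans (kempe_symm G hb2)

end Pool.Agent.Results.MP_de689f_co.IndependenceTwo
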